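import Pool.Agent.H29.Sp.Final

set_option autoImplicit false

namespace Pool.Agent.Results.MP_7f4959_gt.EssentialSpan

open Pool.Agent.H29.Sp

/-- Let `J = range j` and `C = range h` be simple closed curves in the plane, `C` in the bounded
complementary domain of `J`, all points of `C` at distance at least `D` from `J`. Then
`ess C + 2 D ≤ ess J ≤ span J`. So if the span of `C` is its essential span, then
`span C + 2 D ≤ span J`. -/
theorem result (j h : Circle → EuclideanSpace ℝ (Fin 2)) (hj : Continuous j)
    (hji : Function.Injective j) (hh : Continuous h) (hhi : Function.Injective h)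
    (hin : Set.range h ⊆ inner (Set.range j)) (D : ℝ)
    (hD : ∀ x ∈ Set.range h, D ≤ Metric.infDist x (Set.range j)) :
    ess h + 2 * D ≤ ess j ∧ ess j ≤ span (Set.range j) ∧
      (span (Set.range h) = ess h → span (Set.range h) + 2 * D ≤ span (Set.range j)) := by
  have h1 := fin_E j hj hji h hh hhi hin D hD
  have h2 := fin_le j hj hji
  exact ⟨h1, h2, fun h3 => by rw [h3]; exact h1.trans h2⟩

end Pool.Agent.Results.MP_7f4959_gt.EssentialSpan
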