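import Pool.Agent.H29.SQ.Cond

set_option autoImplicit false

namespace Pool.Agent.Results.MP_7f4959_gt.Quadrilaterals

open Pool.Agent.H29.Sp Pool.Agent.H29.SQ

/-- Let `C = range h` be a simple closed curve in the plane. Suppose that
(1) there are numbers `s > ess C` arbitrarily close to `ess C` such that (a) `FarJoined`: for some
point `c` of `C` any two pairs `(c, y)`, `(c, y')` of points of `C` at distance `≥ s` lie in one
connected set of pairs of points of `C` at distance `≥ s`, or (b) `SmallFibres`: some continuous real
function on `C` has all fibres of diameter `≤ s`, or (c) `Swept`: `C` is swept out by arcs which all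
contain one point, grow from this point to `C` and have endpoints at distance `≤ s`; or
(2) `C` is a triangle with one concave side; or
(3) `C` is a nonconvex quadrilateral or a triangle `A B E D`, `E` in the triangle `A B D` and not on
its sides `A B` and `A D`.
Then `span C = ess C`, and `span C + 2 D ≤ span J` for every simple closed curve `J` such that `C`
lies in the bounded complementary domain of `J` at distance at least `D` from `J`. -/
theorem result (h : Circle → EuclideanSpace ℝ (Fin 2)) (hh : Continuous h)
    (hhi : Function.Injective h)
    (hC : (∀ ε : ℝ, 0 < ε → ∃ s : ℝ, ess h < s ∧ s < ess h + ε ∧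
        (FarJoined (Set.range h) s ∨ SmallFibres (Set.range h) s ∨ Swept h s)) ∨
      ConcaveTriangle (Set.range h) ∨ NonconvexQuad (Set.range h)) :
    span (Set.range h) = ess h ∧
      ∀ j : Circle → EuclideanSpace ℝ (Fin 2), Continuous j → Function.Injective j →
        Set.range h ⊆ inner (Set.range j) →
        ∀ D : ℝ, (∀ x ∈ Set.range h, D ≤ Metric.infDist x (Set.range j)) →
          span (Set.range h) + 2 * D ≤ span (Set.range j) := by
  have he : span (Set.range h) = ess h := by
    rcases hC with h1 | ⟨A, B, D, γ, h1, h2, h3, h4, h5, h6, h7, h8⟩ | ⟨A, B, E, D, h1, h2, h3, h4, h5⟩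
    · exact crit h hh hhi h1
    · exact concave h hh hhi A B D γ (det2_ne h1) h2 h3.isPreconnected h4 h5 h6 h7 h8
    · exact quad h hh hhi A B E D (det2_ne h1) h2 h3 h4 h5
  exact ⟨he, fun j hj hji hin D hD => around h hh hhi he j hj hji hin D hD⟩

end Pool.Agent.Results.MP_7f4959_gt.Quadrilaterals
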