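import Pool.Agent.H29.Sp.Final

set_option autoImplicit false

namespace Pool.Agent.Results.MP_7f4959_gt.SpanCriterion

open Pool.Agent.H29.Sp

/-- Let `J = range j` and `C = range h` be simple closed curves in the plane, `C` in the bounded
complementary domain `U` of `J`, all points of `C` at distance at least `D` from `J`. Suppose that
for every `r > ess J` some point `c` of `C` has the following property: if `y` and `y'` are points of
`C` with `|c - y| + 2 D ≥ r` and `|c - y'| + 2 D ≥ r`, then `(c, y)` and `(c, y')` lie in one connected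
set of pairs `(x, z)` of points of `U` with `|x - z| + dist (x, J) + dist (z, J) ≥ r`; or suppose that
for every `s > ess C` some point `c` of `C` has a connected set of points of `C` at distance `≥ s`.
Then `span C + 2 D ≤ ess J ≤ span J`. -/
theorem result (j h : Circle → EuclideanSpace ℝ (Fin 2)) (hj : Continuous j)
    (hji : Function.Injective j) (hh : Continuous h) (hhi : Function.Injective h)
    (hin : Set.range h ⊆ inner (Set.range j)) (D : ℝ)
    (hD : ∀ x ∈ Set.range h, D ≤ Metric.infDist x (Set.range j))
    (hT : (∀ r : ℝ, ess j < r → ∃ c ∈ Set.range h, ∀ y ∈ Set.range h, ∀ y' ∈ Set.range h,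
        r ≤ dist c y + 2 * D → r ≤ dist c y' + 2 * D →
        ∃ T : Set (EuclideanSpace ℝ (Fin 2) × EuclideanSpace ℝ (Fin 2)), IsPreconnected T ∧
          T ⊆ inner (Set.range j) ×ˢ inner (Set.range j) ∧
          (∀ p ∈ T, r ≤ gap (Set.range j) p) ∧ (c, y) ∈ T ∧ (c, y') ∈ T) ∨
      (∀ s : ℝ, ess h < s → ∃ c ∈ Set.range h,
        IsPreconnected {z | z ∈ Set.range h ∧ s ≤ dist c z})) :
    span (Set.range h) + 2 * D ≤ ess j ∧ ess j ≤ span (Set.range j) := by
  refine ⟨?_, fin_le j hj hji⟩
  rcases hT with hT | hT
  · exact fin_B j hj hji h hh hhi hin D hD hT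
  · exact fin_C j hj hji h hh hhi hin D hD hT

end Pool.Agent.Results.MP_7f4959_gt.SpanCriterion
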