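import Pool.Agent.H29.Sp.Final

set_option autoImplicit false

namespace Pool.Agent.Results.MP_7f4959_gt.SymmetricSpan

open Pool.Agent.H29.Sp

/-- Let `J = range j` be a simple closed curve in the plane and `U` its bounded complementary domain.
If a connected set `Z` of pairs of points of `U` contains a pair `(x, y)` and its reversal `(y, x)`, and
`|p - q| + dist (p, J) + dist (q, J) ≥ r` for all pairs `(p, q)` in `Z`, then `r ≤ ess J ≤ span J`. -/
theorem result (j : Circle → EuclideanSpace ℝ (Fin 2)) (hj : Continuous j)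
    (hji : Function.Injective j)
    (Z : Set (EuclideanSpace ℝ (Fin 2) × EuclideanSpace ℝ (Fin 2))) (hZ : IsPreconnected Z)
    (hX : Z ⊆ inner (Set.range j) ×ˢ inner (Set.range j)) (x y : EuclideanSpace ℝ (Fin 2))
    (hxy : (x, y) ∈ Z) (hyx : (y, x) ∈ Z) (r : ℝ) (hr : ∀ p ∈ Z, r ≤ gap (Set.range j) p) :
    r ≤ ess j ∧ ess j ≤ span (Set.range j) :=
  ⟨fin_A j hj hji Z hZ hX r hr x y hxy hyx, fin_le j hj hji⟩

end Pool.Agent.Results.MP_7f4959_gt.SymmetricSpan
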